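import Pool.Agent.H46.TY.Defs

/-! A stuck row can only be placed after a repair of all leaves. -/

namespace Pool.Agent.H46.TY

open Finset Pool.Agent.H46.SR Pool.Agent.H46.TS

namespace Par

variable (P : Par)

/-- the part of level at least `i` is constant on a time cell of level `i` -/
theorem hi_const {ω : P.Sp} {i : Fin P.L} {β : ℕ} (hβ : β < P.N / P.T i.val) {x : Fin P.N}
    (hx : x.val / P.T i.val = β) (y : Fin P.N) : P.hi ω i x y = P.hi ω i (P.x0 i β) y := by
  sorry

theorem det {γ : ZMod 2} {ω : P.Sp} {ψ : Fin (P.z ^ P.D) → Fin P.N} {i : Fin P.L} {β : ℕ}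
    (hβ : β < P.N / P.T i.val) {r : P.Rr} (hs : P.St γ ω ψ i β r) (hp : P.Plc γ ω ψ i β r) :
    P.Rep ω ψ i β r := by
  sorry

end Par

end Pool.Agent.H46.TY
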