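import Pool.Agent.H46.TY.Defs

/-! A good row is stuck with probability at least `1 / (Q d ^ d)`, and this depends only on the
coordinates in `Cz`. -/

namespace Pool.Agent.H46.TY

open Finset Pool.Agent.H46.SR Pool.Agent.H46.TS

variable {P : Par} {ψ : Fin (P.z ^ P.D) → Fin P.N} {F : P.Prof ψ} {v : P.Sp} {i : Fin P.L} {β : ℕ}
  {r : P.Rr}

/-- the type vector of level `l ≥ i` does not read `D1` -/
theorem tv_mix (l : Fin P.L) (hl : i ≤ l) (w : P.Sp) (x y : Fin P.N) :
    P.tv (mix (Par.D1 F i β) v w) l x y = P.tv v l x y := by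
  sorry

/-- the flips of level at least `i`, other than `(i, F.k)`, do not read `D1` -/
theorem fl_mix (l : Fin P.L) (k : Fin (P.G + 1)) (hl : i ≤ l) (hne : (l, k) ≠ (i, F.k)) (w : P.Sp)
    (x y : Fin P.N) : P.fl (mix (Par.D1 F i β) v w) l k x y = P.fl v l k x y := by
  sorry

/-- `hi = base + the flip (i, F.k)`, and that flip reads one coordinate of `w` -/
theorem hi_mix (w : P.Sp) (y : Fin P.N) :
    P.hi (mix (Par.D1 F i β) v w) i (P.x0 i β) y = P.base v i F.k (P.x0 i β) y +
      (if (w (P.cF ((i, F.k), (Par.dv (P.T i.val) (P.x0 i β), Par.dv (P.U F.k.val) y),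
        P.tv v i (P.x0 i β) y))).1.val = 0 then 1 else 0) := by
  sorry

/-- the type of level `i` reads one coordinate of `w` -/
theorem ty_mix (w : P.Sp) (y : Fin P.N) :
    P.ty (mix (Par.D1 F i β) v w) i (P.x0 i β) y =
      (w (P.cT (i, Par.dv (P.T i.val) (P.x0 i β), y))).2 := by
  sorry

theorem st_dep (hr : Par.Gd F v i β r) (γ : ZMod 2) (w w' : P.Sp)
    (h : ∀ c ∈ Par.Cz F v i β r, w c = w' c) :
    P.St γ (mix (Par.D1 F i β) v w) ψ i β r ↔ P.St γ (mix (Par.D1 F i β) v w') ψ i β r := by
  sorry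

/-- PROOF. All leaves have the same cell of scale `F.k` (block), the same type vector and the same base
colour, so `St` says: one flip coordinate has the value needed (probability `1 / Q` or
`1 - 1 / Q ≥ 1 / Q`), and the `d` different type coordinates `cT (i, _, ψ (leaf l))` have second
component `l` (probability `1 / d` each). Use `av_coords` for the `d + 1` different coordinates. -/
theorem av_st (hr : Par.Gd F v i β r) (γ : ZMod 2) :
    1 / ((P.Q : ℝ) * (P.d : ℝ) ^ P.d) ≤
      av (fun w : P.Sp => ind (P.St γ (mix (Par.D1 F i β) v w) ψ i β r)) := by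
  sorry

end Pool.Agent.H46.TY
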