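import Pool.Agent.H46.TY.Defs

/-! The probability of a repair. -/

namespace Pool.Agent.H46.TY

open Finset Pool.Agent.H46.SR Pool.Agent.H46.TS

namespace Par

variable (P : Par)

/-- PROOF. (Model: `Pool.Agent.H76.LY.Par.av_rep`.) The types are not in `D0`, so the type vectors of
`mix (D0 i β) v w` are those of `v`. `Rep` gives `x` in the cell `β` and for every `l` a pair `(j l, k l)`,
`j l < i`, such that the flip coordinate `cF ((j l, k l), (x / T, y l / U), tv v (j l) x (y l))` of `w` has
value `0`. For fixed `x, j, k` these `d` coordinates are different: if `j l = j l'` then the type vectors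
differ in the component `i` (for `x` in the cell `β`, `ty v i x y = ty v i (x0 i β) y`). So probability
`(1 / Q) ^ d` (`av_coords`), `T i` times `x`, `(L (G + 1)) ^ d` pairs. -/
theorem av_rep {ψ : Fin (P.z ^ P.D) → Fin P.N} {i : Fin P.L} {β : ℕ} (hβ : β < P.N / P.T i.val)
    (r : P.Rr) (v : P.Sp) (hty : ∀ l, P.ty v i (P.x0 i β) (ψ (P.lf r l)) = l) :
    av (fun w : P.Sp => ind (P.Rep (mix (P.D0 i.val β) v w) ψ i β r)) ≤
      (P.T i.val : ℝ) * ((P.L * (P.G + 1) : ℕ) : ℝ) ^ P.d * (1 / (P.Q : ℝ)) ^ P.d := by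
  sorry

end Par

end Pool.Agent.H46.TY
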