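import Pool.Agent.H46.TY.Fresh
import Pool.Agent.H46.TY.MatchP
import Pool.Agent.H46.TY.Det
import Pool.Agent.H46.TY.RepP
import Pool.Agent.H76.LZ.Seq

/-! The probability that all rows of a block can be placed in a time cell, in a given colour. -/

namespace Pool.Agent.H46.TY

open Finset Pool.Agent.H46.SR Pool.Agent.H46.TS

namespace Par

variable (P : Par)

/-- probability that a good row is stuck -/
noncomputable def π0 : ℝ := 1 / ((P.Q : ℝ) * (P.d : ℝ) ^ P.d)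

/-- the bound for one row -/
noncomputable def rr (i : ℕ) : ℝ :=
  (P.T i : ℝ) * ((P.L * (P.G + 1) : ℕ) : ℝ) ^ P.d * (1 / (P.Q : ℝ)) ^ P.d

/-- the bound for one block and one cell -/
noncomputable def pp (c : ℝ) (i : ℕ) : ℝ :=
  (1 - c * P.π0) ^ (P.z ^ (P.τ + 1)) + (P.z : ℝ) ^ (P.τ + 1) * P.rr i

theorem π0_pos : 0 < P.π0 := by
  have h1 : (0 : ℝ) < P.Q := by exact_mod_cast P.Q_pos
  have h2 : (0 : ℝ) < P.d := by exact_mod_cast P.dpos
  unfold π0
  positivity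

theorem π0_le : P.π0 ≤ 1 := by
  have h1 : (1 : ℝ) ≤ P.Q := by exact_mod_cast P.Q_pos
  have h2 : (1 : ℝ) ≤ (P.d : ℝ) ^ P.d := one_le_pow₀ (by exact_mod_cast P.dpos)
  unfold π0
  rw [div_le_one (by positivity)]
  nlinarith

theorem rr_nonneg (i : ℕ) : 0 ≤ P.rr i := by unfold rr; positivity

theorem mem_D1_Db {ψ : Fin (P.z ^ P.D) → Fin P.N} (F : P.Prof ψ) (i : Fin P.L) {β : ℕ}
    (hβ : β < P.N / P.T i.val) : D1 F i β ⊆ P.Db i.val β := by
  have hT : 0 < P.T i.val := P.T_pos i.val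
  have h3 : β * P.T i.val < P.N :=
    lt_of_lt_of_le (Nat.mul_lt_mul_of_pos_right hβ hT) (Nat.div_mul_le_self _ _)
  have h4 : (dv (P.T i.val) (P.x0 i.val β) : Fin P.N).val = β := by
    show (β * P.T i.val % P.N) / P.T i.val = β
    rw [Nat.mod_eq_of_lt h3]
    exact Nat.mul_div_cancel _ hT
  rintro c (⟨f, rfl, hf1, hf2⟩ | ⟨t, rfl, ht1, ht2⟩)
  · refine ⟨?_, ?_⟩
    · simp only [cl_cF, hf1, le_refl]
    · simp only [cl_cF, ct_cF, hf1, hf2, h4, Nat.div_self hT, Nat.div_one]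
  · refine ⟨?_, ?_⟩
    · simp only [cl_cT, ht1, le_refl]
    · simp only [cl_cT, ct_cT, ht1, ht2, h4, Nat.div_self hT, Nat.div_one]

theorem block_mix {ι B : Type*} {D D' : Set ι} (h : D' ⊆ D) (ω w1 w2 : ι → B) :
    mix D ω (mix D' w1 w2) = mix D' (mix D ω w1) w2 := by
  funext c
  by_cases h' : c ∈ D'
  · rw [mix_mem (h h'), mix_mem h', mix_mem h']
  · rw [mix_not_mem h']
    by_cases h'' : c ∈ D
    · rw [mix_mem h'', mix_mem h'', mix_not_mem h']
    · rw [mix_not_mem h'', mix_not_mem h'']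

theorem block_comm {X Y : Type*} [Fintype X] [Fintype Y] (f : X → Y → ℝ) :
    av (fun a => av (fun b => f a b)) = av (fun b => av (fun a => f a b)) := by
  have h1 : av (fun a => av (fun b => f a b)) = av (fun p : X × Y => f p.1 p.2) :=
    (av_prod (fun p : X × Y => f p.1 p.2)).symm
  have h2 : av (fun b => av (fun a => f a b)) = av (fun p : Y × X => f p.2 p.1) :=
    (av_prod (fun p : Y × X => f p.2 p.1)).symm
  rw [h1, h2]
  exact (av_equiv (Equiv.prodComm X Y) (fun p : Y × X => f p.2 p.1))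

theorem block_split {γ : ZMod 2} {ψ : Fin (P.z ^ P.D) → Fin P.N} {i : Fin P.L} {β x : ℕ}
    (hβ : β < P.N / P.T i.val) (ω : P.Sp) (rows : Fin x → P.Rr) :
    ind (∀ a, P.Plc γ ω ψ i β (rows a)) ≤
      ind (∀ a, ¬ P.St γ ω ψ i β (rows a)) +
        ∑ a, ind (P.St γ ω ψ i β (rows a) ∧ P.Rep ω ψ i β (rows a)) := by
  have hs : 0 ≤ ∑ a, ind (P.St γ ω ψ i β (rows a) ∧ P.Rep ω ψ i β (rows a)) :=
    Finset.sum_nonneg (fun a _ => ind_nonneg _)
  by_cases h : ∀ a, P.Plc γ ω ψ i β (rows a)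
  · rw [ind_pos h]
    by_cases h1 : ∀ a, ¬ P.St γ ω ψ i β (rows a)
    · rw [ind_pos h1]
      linarith
    · rw [ind_neg h1]
      push Not at h1
      obtain ⟨a, hg⟩ := h1
      have h2 : P.Rep ω ψ i β (rows a) := P.det hβ hg (h a)
      have h3 : (1 : ℝ) ≤ ∑ a, ind (P.St γ ω ψ i β (rows a) ∧ P.Rep ω ψ i β (rows a)) := by
        calc (1 : ℝ) = ind (P.St γ ω ψ i β (rows a) ∧ P.Rep ω ψ i β (rows a)) :=
              (ind_pos ⟨hg, h2⟩).symm
          _ ≤ _ := Finset.single_le_sum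
              (f := fun a => ind (P.St γ ω ψ i β (rows a) ∧ P.Rep ω ψ i β (rows a)))
              (fun a _ => ind_nonneg _) (mem_univ a)
      linarith
  · rw [ind_neg h]
    have := ind_nonneg (∀ a, ¬ P.St γ ω ψ i β (rows a))
    linarith

/-- the types are not changed by resampling lower flips -/
theorem ty_D0 {i : Fin P.L} {β : ℕ} (v w : P.Sp) (j : Fin P.L) (x y : Fin P.N) :
    P.ty (mix (P.D0 i.val β) v w) j x y = P.ty v j x y := by
  unfold ty
  rw [mix_not_mem]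
  rintro ⟨-, f, hf, -⟩
  exact P.cT_ne_cF _ _ hf

theorem block_rep1 {γ : ZMod 2} {ψ : Fin (P.z ^ P.D) → Fin P.N} {i : Fin P.L} {β : ℕ}
    (hβ : β < P.N / P.T i.val) (ω : P.Sp) (r : P.Rr) :
    av (fun w : P.Sp => ind (P.St γ (mix (P.Db i.val β) ω w) ψ i β r ∧
      P.Rep (mix (P.Db i.val β) ω w) ψ i β r)) ≤ P.rr i.val := by
  have hsub : P.D0 i.val β ⊆ P.Db i.val β := fun c hc => hc.1
  rw [av_mix (P.D0 i.val β)]
  have h1 : ∀ w1 : P.Sp, av (fun w2 : P.Sp =>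
      ind (P.St γ (mix (P.Db i.val β) ω (mix (P.D0 i.val β) w1 w2)) ψ i β r ∧
        P.Rep (mix (P.Db i.val β) ω (mix (P.D0 i.val β) w1 w2)) ψ i β r)) ≤ P.rr i.val := by
    intro w1
    by_cases hty : ∀ l, P.ty (mix (P.Db i.val β) ω w1) i (P.x0 i β) (ψ (P.lf r l)) = l
    · refine le_trans (av_mono (fun w2 => ind_mono (fun h => h.2))) ?_
      simp only [block_mix hsub]
      exact P.av_rep hβ r _ hty
    · have h3 : ∀ w2 : P.Sp,
          ind (P.St γ (mix (P.Db i.val β) ω (mix (P.D0 i.val β) w1 w2)) ψ i β r ∧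
            P.Rep (mix (P.Db i.val β) ω (mix (P.D0 i.val β) w1 w2)) ψ i β r) = 0 := by
        intro w2
        apply ind_neg
        rintro ⟨⟨-, h4⟩, -⟩
        apply hty
        intro l
        have h5 := h4 l
        rw [block_mix hsub, P.ty_D0] at h5
        exact h5
      rw [av_congr h3, av_const]
      exact P.rr_nonneg _
  exact (av_mono h1).trans (av_const (Ω := P.Sp) (P.rr i.val)).le

theorem block_rep {γ : ZMod 2} {ψ : Fin (P.z ^ P.D) → Fin P.N} {i : Fin P.L} {β : ℕ}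
    (hβ : β < P.N / P.T i.val) (x : ℕ) (ω : P.Sp) :
    av (fun p : (Fin x → P.Rr) × P.Sp =>
      ∑ a, ind (P.St γ (mix (P.Db i.val β) ω p.2) ψ i β (p.1 a) ∧
        P.Rep (mix (P.Db i.val β) ω p.2) ψ i β (p.1 a))) ≤ (x : ℝ) * P.rr i.val := by
  rw [av_sum univ (fun (a : Fin x) (p : (Fin x → P.Rr) × P.Sp) =>
    ind (P.St γ (mix (P.Db i.val β) ω p.2) ψ i β (p.1 a) ∧
        P.Rep (mix (P.Db i.val β) ω p.2) ψ i β (p.1 a)))]
  have h1 : ∀ a : Fin x, av (fun p : (Fin x → P.Rr) × P.Sp =>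
      ind (P.St γ (mix (P.Db i.val β) ω p.2) ψ i β (p.1 a) ∧
        P.Rep (mix (P.Db i.val β) ω p.2) ψ i β (p.1 a))) ≤ P.rr i.val := by
    intro a
    rw [av_prod]
    have h2 : ∀ rows : Fin x → P.Rr, av (fun w : P.Sp =>
        ind (P.St γ (mix (P.Db i.val β) ω w) ψ i β (rows a) ∧
          P.Rep (mix (P.Db i.val β) ω w) ψ i β (rows a))) ≤ P.rr i.val :=
      fun rows => P.block_rep1 hβ ω (rows a)
    exact (av_mono h2).trans (av_const (Ω := Fin x → P.Rr) (P.rr i.val)).le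
  refine (Finset.sum_le_sum (fun a _ => h1 a)).trans (le_of_eq ?_)
  rw [Finset.sum_const, Finset.card_univ, Fintype.card_fin, nsmul_eq_mul]

theorem block_mat {γ : ZMod 2} {ψ : Fin (P.z ^ P.D) → Fin P.N} (F : P.Prof ψ) {i : Fin P.L}
    {β : ℕ} (hβ : β < P.N / P.T i.val) {c : ℝ} (hc0 : 0 ≤ c) (hc1 : c ≤ 1) (hc : c ≤ P.cst)
    (ω : P.Sp) :
    av (fun p : (Fin (P.z ^ (P.τ + 1)) → P.Rr) × P.Sp =>
      ind (∀ a, ¬ P.St γ (mix (P.Db i.val β) ω p.2) ψ i β (p.1 a))) ≤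
      (1 - c * P.π0) ^ (P.z ^ (P.τ + 1)) := by
  set x : ℕ := P.z ^ (P.τ + 1) with hx
  have h1 : ∀ v : P.Sp, av (fun p : (Fin x → P.Rr) × P.Sp =>
      ind (∀ a, ¬ P.St γ (mix (D1 F i β) v p.2) ψ i β (p.1 a))) ≤ (1 - c * P.π0) ^ x := by
    intro v
    refine le_trans (av_mono (fun p => ind_mono (fun h a => ?_)))
      (Pool.Agent.H76.LZ.seq (fun r : P.Rr => Gd F v i β r) (fun r => Cz F v i β r)
        (fun r w => P.St γ (mix (D1 F i β) v w) ψ i β r) P.π0_pos.le P.π0_le hc0 hc1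
        (fun r hr w w' h => st_dep hr γ w w' h)
        (fun r hr => av_st hr γ) (fun l hl => hc.trans (P.av_gd F v i β l hl)))
    exact fun h2 => h a h2.2
  rw [av_prod]
  have h2 : ∀ rows : Fin x → P.Rr, av (fun w : P.Sp =>
      ind (∀ a, ¬ P.St γ (mix (P.Db i.val β) ω w) ψ i β (rows a))) =
      av (fun w1 : P.Sp => av (fun w2 : P.Sp =>
        ind (∀ a, ¬ P.St γ (mix (D1 F i β) (mix (P.Db i.val β) ω w1) w2) ψ i β (rows a)))) := by
    intro rows
    rw [av_mix (D1 F i β)]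
    apply av_congr
    intro w1
    apply av_congr
    intro w2
    rw [block_mix (P.mem_D1_Db F i hβ)]
  rw [av_congr h2, block_comm]
  have h3 : ∀ w1 : P.Sp, av (fun rows : Fin x → P.Rr => av (fun w2 : P.Sp =>
        ind (∀ a, ¬ P.St γ (mix (D1 F i β) (mix (P.Db i.val β) ω w1) w2) ψ i β (rows a)))) ≤
      (1 - c * P.π0) ^ x := by
    intro w1
    have h4 := h1 (mix (P.Db i.val β) ω w1)
    rw [av_prod] at h4
    exact h4
  exact (av_mono h3).trans (av_const _).le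

theorem block {γ : ZMod 2} {ψ : Fin (P.z ^ P.D) → Fin P.N} (F : P.Prof ψ) {i : Fin P.L} {β : ℕ}
    (hβ : β < P.N / P.T i.val) {c : ℝ} (hc0 : 0 ≤ c) (hc1 : c ≤ 1) (hc : c ≤ P.cst) (ω : P.Sp) :
    av (fun p : (Fin (P.z ^ (P.τ + 1)) → P.Rr) × P.Sp =>
      ind (∀ a, P.Plc γ (mix (P.Db i.val β) ω p.2) ψ i β (p.1 a))) ≤ P.pp c i.val := by
  refine le_trans (av_mono (fun p => P.block_split hβ (mix (P.Db i.val β) ω p.2) p.1)) ?_
  rw [av_add]
  have h1 := P.block_mat (γ := γ) F hβ hc0 hc1 hc ω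
  have h2 := P.block_rep (γ := γ) (ψ := ψ) hβ (P.z ^ (P.τ + 1)) ω
  have h3 : (((P.z ^ (P.τ + 1) : ℕ)) : ℝ) = (P.z : ℝ) ^ (P.τ + 1) := by push_cast; ring
  rw [h3] at h2
  unfold pp
  linarith

end Par

end Pool.Agent.H46.TY
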