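import Pool.Agent.H46.TY.Defs

/-! Random rows: probability that all leaves lie in a given set and in one class; collisions;
marginals. -/

namespace Pool.Agent.H46.TY

open Finset Pool.Agent.H46.SR Pool.Agent.H46.TS

namespace Par

variable (P : Par)

/-- PROOF. Let `z = P.z`, `Q = block X / z` of the base column (uniform), and for a class `κ` let
`f Q κ` = proportion of the columns of the block `Q` in `TT ∩ χ⁻¹ κ`. Given the base column the leaves
are independent and uniform in the block, so the probability is `E_Q ∑ κ, (f Q κ) ^ d`, and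
`∑ κ, (f Q κ) ^ d ≥ (∑ κ, f Q κ) ^ d / |K| ^ (d - 1)` (`inner_le_nnorm_mul_nnorm` / power mean:
`inner_mul_le_norm_mul_norm`, e.g. `Finset.inner_mul_le..`, `Real.pow_arith_mean_le_arith_mean_pow`,
`Finset.pow_card_mul...`), then Jensen again for `E_Q`. -/
theorem av_cls {K : Type*} [Fintype K] [DecidableEq K] [Nonempty K]
    (TT : Finset (Fin (P.z ^ P.D))) (χ : Fin (P.z ^ P.D) → K) :
    ((TT.card : ℝ) / (P.z : ℝ) ^ P.D) ^ P.d * (1 / (Fintype.card K : ℝ)) ^ (P.d - 1) ≤
      av (fun r : P.Rr => ind ((∀ l, P.lf r l ∈ TT) ∧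
        ∀ l l', χ (P.lf r l) = χ (P.lf r l'))) := by
  sorry

/-- a given leaf is uniform -/
theorem av_lf (l : Fin P.d) (b : Fin (P.z ^ P.D)) :
    av (fun r : P.Rr => ind (P.lf r l = b)) ≤ 1 / (P.z : ℝ) ^ P.D := by
  sorry

/-- collisions are rare (union over the pairs, each has probability `1 / z`) -/
theorem av_coll :
    av (fun r : P.Rr => ind (¬ Function.Injective (fun l => P.lf r l))) ≤
      (P.d : ℝ) ^ 2 / P.z := by
  sorry

/-- the leaves of a row lie in one block -/
theorem lf_block (r : P.Rr) (l l' : Fin P.d) :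
    (P.lf r l).val / P.z = (P.lf r l').val / P.z := by
  sorry

end Par

end Pool.Agent.H46.TY
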