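import Pool.Agent.H46.TS.Group
import Pool.Agent.H46.SR.Final

/-! Definitions: the multi-scale colouring with types, and the random rows (note 2818 of the team
database). -/

namespace Pool.Agent.H46.TY

open Finset Pool.Agent.H46.SR Pool.Agent.H46.TS

/-- the sample space of one row: a base column and `d` columns -/
abbrev Rw (z d D : ℕ) : Type := Fin (z ^ D) × (Fin d → Fin (z ^ D))

/-- the columns of the ones of a row: column `l` is uniform in the block of length `z` of the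
base column -/
def lfN {z d D : ℕ} (r : Rw z d D) (l : Fin d) : ℕ := pl z r.1.val (r.2 l).val

theorem pl_lt {l m : ℕ} (hl : 0 < l) (hd : l ∣ m) {X : ℕ} (hX : X < m) (Y : ℕ) :
    pl l X Y < m := by
  obtain ⟨q, rfl⟩ := hd
  have h1 : X / l < q := Nat.div_lt_of_lt_mul hX
  unfold pl
  have h2 : Y % l < l := Nat.mod_lt _ hl
  calc X / l * l + Y % l < X / l * l + l := by omega
    _ = (X / l + 1) * l := by ring
    _ ≤ q * l := Nat.mul_le_mul_right _ h1
    _ = l * q := mul_comm _ _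

theorem lfN_lt {z d D : ℕ} (hz : 0 < z) (hD : 1 ≤ D) (r : Rw z d D) (l : Fin d) :
    lfN r l < z ^ D := by
  unfold lfN
  exact pl_lt hz (dvd_pow_self z (by omega)) r.1.2 _

/-- all parameters -/
structure Par where
  z : ℕ
  d : ℕ
  L : ℕ
  t0 : ℕ
  ρ : ℕ
  τ : ℕ
  D : ℕ
  G : ℕ
  hz : 2 ≤ z
  hd : 1 ≤ d
  hL : 1 ≤ L
  hτ : 1 ≤ τ
  ht : t0 + ρ * (L - 1) ≤ G
  hD : τ + 6 ≤ D

namespace Par

variable (P : Par)

/-- length of a time cell of level `i` -/
def T (i : ℕ) : ℕ := P.z ^ (P.t0 + P.ρ * i)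
/-- length of a column cell of scale `k` -/
def U (k : ℕ) : ℕ := P.z ^ k
/-- side of the coloured matrix -/
def N : ℕ := P.z ^ P.G
/-- a flip has probability `1 / Q` -/
def Q : ℕ := P.z ^ P.τ

theorem zpos : 0 < P.z := by have := P.hz; omega
theorem dpos : 0 < P.d := P.hd
theorem T_pos (i : ℕ) : 0 < P.T i := pow_pos P.zpos _
theorem U_pos (k : ℕ) : 0 < P.U k := pow_pos P.zpos _
theorem N_pos : 0 < P.N := pow_pos P.zpos _
theorem Q_pos : 0 < P.Q := pow_pos P.zpos _
theorem Q_ge : 2 ≤ P.Q := by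
  unfold Q
  calc 2 ≤ P.z := P.hz
    _ = P.z ^ 1 := (pow_one _).symm
    _ ≤ P.z ^ P.τ := Nat.pow_le_pow_right P.zpos P.hτ
theorem T_dvd {i j : ℕ} (h : i ≤ j) : P.T i ∣ P.T j := by
  unfold T
  exact pow_dvd_pow _ (by have := Nat.mul_le_mul_left P.ρ h; omega)
theorem U_dvd {i j : ℕ} (h : i ≤ j) : P.U i ∣ P.U j := pow_dvd_pow _ h
theorem T_dvd_N {i : ℕ} (h : i < P.L) : P.T i ∣ P.N := by
  unfold T N
  apply pow_dvd_pow
  have h1 := P.ht
  have h2 : P.ρ * i ≤ P.ρ * (P.L - 1) := Nat.mul_le_mul_left _ (by omega)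
  omega

instance : NeZero P.N := ⟨P.N_pos.ne'⟩
instance : NeZero P.Q := ⟨P.Q_pos.ne'⟩
instance : NeZero P.d := ⟨P.dpos.ne'⟩
instance : NeZero P.L := ⟨by have := P.hL; omega⟩
instance : Nonempty (Fin P.Q) := ⟨⟨0, P.Q_pos⟩⟩
instance : Nonempty (Fin P.d) := ⟨⟨0, P.dpos⟩⟩
instance : Nonempty (Fin P.N) := ⟨⟨0, P.N_pos⟩⟩

/-- integer division on `Fin n` -/
def dv {n : ℕ} (l : ℕ) (x : Fin n) : Fin n := ⟨x.val / l, lt_of_le_of_lt (Nat.div_le_self _ _) x.2⟩

/-- coordinates of the flips: (level, scale), (time cell, column cell), type vector -/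
abbrev Fc : Type := (Fin P.L × Fin (P.G + 1)) × (Fin P.N × Fin P.N) × (Fin P.L → Fin P.d)
/-- coordinates of the types: level, time cell, column -/
abbrev Tc : Type := Fin P.L × Fin P.N × Fin P.N
/-- all coordinates -/
def Co : Type := P.Fc ⊕ P.Tc

noncomputable instance : Fintype P.Co := inferInstanceAs (Fintype (P.Fc ⊕ P.Tc))
noncomputable instance : DecidableEq P.Co := Classical.decEq _

/-- a flip coordinate -/
def cF (f : P.Fc) : P.Co := Sum.inl f
/-- a type coordinate -/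
def cT (t : P.Tc) : P.Co := Sum.inr t

theorem cF_inj {f f' : P.Fc} : P.cF f = P.cF f' ↔ f = f' := Sum.inl.injEq f f' ▸ Iff.rfl
theorem cT_inj {t t' : P.Tc} : P.cT t = P.cT t' ↔ t = t' := Sum.inr.injEq t t' ▸ Iff.rfl
theorem cF_ne_cT (f : P.Fc) (t : P.Tc) : P.cF f ≠ P.cT t := Sum.inl_ne_inr
theorem cT_ne_cF (f : P.Fc) (t : P.Tc) : P.cT t ≠ P.cF f := Sum.inr_ne_inl

/-- the random colouring: of the value of a coordinate of a flip only the first component is used,
of the value of a coordinate of a type only the second one -/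
abbrev Sp : Type := P.Co → Fin P.Q × Fin P.d
/-- the random row -/
abbrev Rr : Type := Rw P.z P.d P.D

instance : Nonempty P.Rr := by
  have h : 0 < P.z ^ P.D := pow_pos P.zpos _
  exact ⟨(⟨0, h⟩, fun _ => ⟨0, h⟩)⟩

/-- the type of the column `y` at the time `x`, level `i` -/
def ty (ω : P.Sp) (i : Fin P.L) (x y : Fin P.N) : Fin P.d :=
  (ω (P.cT (i, dv (P.T i.val) x, y))).2

/-- the type vector seen by the flips of level `l`: the types of the levels above `l` -/
def tv (ω : P.Sp) (l : Fin P.L) (x y : Fin P.N) : Fin P.L → Fin P.d :=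
  fun i => if l < i then P.ty ω i x y else ⟨0, P.dpos⟩

/-- the flip of level `l` and scale `k` at the point `(x, y)` -/
def fl (ω : P.Sp) (l : Fin P.L) (k : Fin (P.G + 1)) (x y : Fin P.N) : ZMod 2 :=
  if (ω (P.cF ((l, k), (dv (P.T l.val) x, dv (P.U k.val) y), P.tv ω l x y))).1.val = 0
  then 1 else 0

/-- the colour -/
def col (ω : P.Sp) (x y : Fin P.N) : ZMod 2 :=
  ∑ q : Fin P.L × Fin (P.G + 1), P.fl ω q.1 q.2 x y

/-- the columns of a row -/
def lf (r : P.Rr) (l : Fin P.d) : Fin (P.z ^ P.D) :=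
  ⟨lfN r l, lfN_lt P.zpos (by have := P.hD; omega) r l⟩

/-- row `r` can be placed in the time cell `β` of level `i`, in the colour `γ` -/
def Plc (γ : ZMod 2) (ω : P.Sp) (ψ : Fin (P.z ^ P.D) → Fin P.N) (i β : ℕ) (r : P.Rr) : Prop :=
  ∃ x : Fin P.N, x.val / P.T i = β ∧ ∀ l, P.col ω x (ψ (P.lf r l)) = γ

/-- level of a coordinate -/
def cl (c : P.Co) : ℕ := Sum.elim (fun f : P.Fc => f.1.1.val) (fun t : P.Tc => t.1.val) c
/-- time cell of a coordinate -/
def ct (c : P.Co) : ℕ := Sum.elim (fun f : P.Fc => f.2.1.1.val) (fun t : P.Tc => t.2.1.val) c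

@[simp] theorem cl_cF (f : P.Fc) : P.cl (P.cF f) = f.1.1.val := rfl
@[simp] theorem cl_cT (t : P.Tc) : P.cl (P.cT t) = t.1.val := rfl
@[simp] theorem ct_cF (f : P.Fc) : P.ct (P.cF f) = f.2.1.1.val := rfl
@[simp] theorem ct_cT (t : P.Tc) : P.ct (P.cT t) = t.2.1.val := rfl

/-- the coordinates of level at most `i` inside the time cell `β` of level `i` -/
def Db (i β : ℕ) : Set P.Co := {c | P.cl c ≤ i ∧ P.ct c / (P.T i / P.T (P.cl c)) = β}

/-- the flip coordinates of level less than `i` inside the time cell `β` of level `i` -/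
def D0 (i β : ℕ) : Set P.Co := {c | c ∈ P.Db i β ∧ ∃ f : P.Fc, c = P.cF f ∧ f.1.1.val < i}

/-- the data of a profile: a scale `k` such that the blocks of length `z` of the good columns `TT`
are mapped into one cell of the scale `k`, and these cells contain at most `z ^ 4` columns -/
structure Prof (ψ : Fin (P.z ^ P.D) → Fin P.N) where
  k : Fin (P.G + 1)
  TT : Finset (Fin (P.z ^ P.D))
  hTT : P.z ^ P.D ≤ TT.card * (2 * (P.G + 1))
  hb : ∀ b ∈ TT, ∀ b' : Fin (P.z ^ P.D), b'.val / P.z = b.val / P.z →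
      (ψ b').val / P.U k.val = (ψ b).val / P.U k.val
  hJ : ∀ b ∈ TT, (univ.filter (fun b' : Fin (P.z ^ P.D) =>
    (ψ b').val / P.U k.val = (ψ b).val / P.U k.val)).card ≤ P.z ^ 4

/-- first point of a time cell -/
def x0 (i β : ℕ) : Fin P.N := ⟨β * P.T i % P.N, Nat.mod_lt _ P.N_pos⟩

/-- the part of the colour given by the flips of level at least `i` -/
def hi (ω : P.Sp) (i : Fin P.L) (x y : Fin P.N) : ZMod 2 :=
  ∑ q ∈ univ.filter (fun q : Fin P.L × Fin (P.G + 1) => i ≤ q.1), P.fl ω q.1 q.2 x y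

/-- the same without the flip of level `i` and scale `k` -/
def base (ω : P.Sp) (i : Fin P.L) (k : Fin (P.G + 1)) (x y : Fin P.N) : ZMod 2 :=
  ∑ q ∈ univ.filter (fun q : Fin P.L × Fin (P.G + 1) => i ≤ q.1 ∧ q ≠ (i, k)), P.fl ω q.1 q.2 x y

variable {P}

/-- a good row: leaves in `TT`, different, with the same base colour and the same type vector -/
structure Gd {ψ : Fin (P.z ^ P.D) → Fin P.N} (F : P.Prof ψ) (v : P.Sp) (i : Fin P.L) (β : ℕ)
    (r : P.Rr) : Prop where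
  gT : ∀ l, P.lf r l ∈ F.TT
  gi : Function.Injective (fun l => P.lf r l)
  gb : ∀ l l', P.base v i F.k (P.x0 i β) (ψ (P.lf r l)) = P.base v i F.k (P.x0 i β) (ψ (P.lf r l'))
  gt : ∀ l l', P.tv v i (P.x0 i β) (ψ (P.lf r l)) = P.tv v i (P.x0 i β) (ψ (P.lf r l'))

variable (P)

/-- a stuck row: in the time cell `β` all leaves have the colour `γ + 1` from the flips of level at
least `i`, and the types of level `i` of the leaves are `0, 1, .., d - 1` -/
def St (γ : ZMod 2) (ω : P.Sp) (ψ : Fin (P.z ^ P.D) → Fin P.N) (i : Fin P.L) (β : ℕ)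
    (r : P.Rr) : Prop :=
  (∀ l, P.hi ω i (P.x0 i β) (ψ (P.lf r l)) = γ + 1) ∧
    ∀ l, P.ty ω i (P.x0 i β) (ψ (P.lf r l)) = l

/-- every leaf has a flip of a level below `i` at a common time in the cell `β` -/
def Rep (ω : P.Sp) (ψ : Fin (P.z ^ P.D) → Fin P.N) (i : Fin P.L) (β : ℕ) (r : P.Rr) : Prop :=
  ∃ x : Fin P.N, x.val / P.T i = β ∧ ∀ l, ∃ (j : Fin P.L) (k : Fin (P.G + 1)), j < i ∧
    P.fl ω j k x (ψ (P.lf r l)) = 1

variable {P}

/-- the resampled coordinates: flips of level `i` and scale `k`, and types of level `i`, in the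
time cell `β` -/
def D1 {ψ : Fin (P.z ^ P.D) → Fin P.N} (F : P.Prof ψ) (i : Fin P.L) (β : ℕ) : Set P.Co :=
  {c | (∃ f : P.Fc, c = P.cF f ∧ f.1 = (i, F.k) ∧ f.2.1.1 = dv (P.T i.val) (P.x0 i β)) ∨
    ∃ t : P.Tc, c = P.cT t ∧ t.1 = i ∧ t.2.1 = dv (P.T i.val) (P.x0 i β)}

open scoped Classical in
/-- the coordinates of `D1` read by a good row (empty if the row is not good) -/
noncomputable def Cz {ψ : Fin (P.z ^ P.D) → Fin P.N} (F : P.Prof ψ) (v : P.Sp) (i : Fin P.L)
    (β : ℕ) (r : P.Rr) : Finset P.Co :=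
  if Gd F v i β r then
    (univ.image (fun l : Fin P.d => P.cF ((i, F.k), (dv (P.T i.val) (P.x0 i β),
      dv (P.U F.k.val) (ψ (P.lf r l))), P.tv v i (P.x0 i β) (ψ (P.lf r l))))) ∪
    (univ.image (fun l : Fin P.d => P.cT (i, dv (P.T i.val) (P.x0 i β), ψ (P.lf r l))))
  else ∅

variable (P)

/-- the constant of the tuple lemma -/
noncomputable def cst : ℝ :=
  (1 / (2 * ((P.G : ℝ) + 1))) ^ P.d * (1 / (2 * (P.d : ℝ) ^ P.L)) ^ (P.d - 1) -
    ((P.d : ℝ) ^ 2 + 1) / P.z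

end Par

end Pool.Agent.H46.TY
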