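import Pool.Agent.H46.TY.Cls

/-! A random row is good and reads no coordinate of the given rows, with positive probability. -/

namespace Pool.Agent.H46.TY

open Finset Pool.Agent.H46.SR Pool.Agent.H46.TS

namespace Par

variable (P : Par)

/-- PROOF. `av_cls` with `TT = F.TT` and the class `χ b = (base colour, type vector)` of the column
`ψ b`, `|K| = 2 * d ^ L` (`K = ZMod 2 × (Fin P.L → Fin P.d)`), minus the collisions `av_coll`, minus:
for each GOOD row `r'` of the list (for the others `Cz = ∅`): if `Cz r` meets `Cz r'` then some leaf of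
`r`, hence (by `lf_block` and `F.hb`) the leaf `0` of `r`, is in the `U k`-cell of the leaf `0` of `r'`,
which contains at most `z ^ 4` columns (`F.hJ`), each has probability `1 / z ^ D` (`av_lf`);
`z ^ (τ + 1) * z ^ 4 / z ^ D ≤ 1 / z` by `P.hD`. -/
theorem av_gd {ψ : Fin (P.z ^ P.D) → Fin P.N} (F : P.Prof ψ) (v : P.Sp) (i : Fin P.L) (β : ℕ)
    (l : List P.Rr) (hl : l.length ≤ P.z ^ (P.τ + 1)) :
    P.cst ≤ av (fun r : P.Rr => ind (Gd F v i β r ∧
      ∀ r' ∈ l, Disjoint (Cz F v i β r) (Cz F v i β r'))) := by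
  sorry

end Par

end Pool.Agent.H46.TY
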