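import Pool.Agent.H46.TY.Defs

/-! Existence of a profile (deterministic).

PROOF. `m = z ^ D`, `U k = z ^ k`, `k = 0 .. G`. For `b : Fin m` let `J k b = {b' | ψ b' / U k = ψ b / U k}`
(an interval of `Fin m` because `ψ` is increasing). Let `κ b` = least `k` such that all `b'` with
`b' / z = b / z` have `ψ b' / U k = ψ b / U k` (exists: `k = G`, since `ψ b < N = U G`); `1 ≤ κ b`
because `U 0 = 1`, `ψ` is injective and `z ≥ 2`.
BAD columns, first kind, for a scale `k < G`: `|J k b| > z ^ 2` and the `z`-block of `b` is not
inside `J k b`. Then `b` is within `z` of an end of the interval `J k b`: at most `2 z` columns in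
each such interval, so at most `2 m / z` columns.
BAD columns, second kind, for `k < G`: `|J (k+1) b| > z ^ 2 * |J k b|`. Each `J (k+1)` is a union of at
most `z` intervals `J k`, so at most `z * |J (k+1)| / z ^ 2` columns in each, at most `m / z` in total.
Total at most `3 G m / z ≤ m / 2`. For the other columns, with `k = κ b`: `|J (k-1) b| ≤ z ^ 2` (not of the
first kind: the block is not inside `J (k-1) b` by the choice of `κ b`), so `|J k b| ≤ z ^ 4`. Pigeonhole
over `k`: `TT = {b | κ b = k, |J k b| ≤ z ^ 4}` for the best `k`.
(Counting can be done with sums over the values `u` of `ψ b / U k`.) -/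

namespace Pool.Agent.H46.TY

open Finset Pool.Agent.H46.SR Pool.Agent.H46.TS

namespace Par

variable (P : Par)

theorem exists_prof (hzb : 6 * (P.G + 1) ≤ P.z) (ψ : Fin (P.z ^ P.D) → Fin P.N)
    (hψ : StrictMono ψ) : Nonempty (P.Prof ψ) := by
  sorry

end Par

end Pool.Agent.H46.TY
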